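import Pool.Agent.H1.GrnC

namespace Pool.Agent.Results.MP_770c06_an.Disproof

open Pool.Agent.H1.Grn

/-- In `ℝ³` there are a linearly accessible domain `D`, a pole `x₀ ∈ D`, a level `t > 0` and a
point `y` outside `Ω_t = {x ∈ D | g(x, x₀) > t}` such that every ray from `y` meets `Ω_t`;
so `Ω_t` is not linearly accessible. -/
theorem result : ∃ (D : Set (EuclideanSpace ℝ (Fin 3))) (x₀ : EuclideanSpace ℝ (Fin 3)) (t : ℝ),
    IsOpen D ∧ IsConnected D ∧ LinAcc D ∧ x₀ ∈ D ∧ 0 < t ∧ (GreenCand D x₀).Nonempty ∧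
    ¬ LinAcc {x ∈ D | (t : EReal) < green D x₀ x} := by
  refine ⟨DD, a, 1 / 12, DD_open, DD_conn, DD_acc, a_mem, by norm_num, ⟨_, cand⟩, fun h => ?_⟩
  obtain ⟨v, hv, h1⟩ := h y0 fun h => not_le.2 h.2 up
  obtain ⟨s, hs, h2⟩ := blocked v hv
  exact h1 s hs h2

end Pool.Agent.Results.MP_770c06_an.Disproof
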